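import Pool.Agent.Helper37.DG.Stmts2
import Pool.Agent.Helper11.DG.UPS

set_option autoImplicit false

/-! Dense subsets of planar lattices (MP_e500b6_co): the upper bound sieve in the box for the form
`x ^ 2 + D * y ^ 2`. -/

namespace Pool.Agent.Helper37.DG

open Finset
open scoped Classical

/-- the number of lattices -/
theorem upsd_tau (D e : ℕ) (he : 1 ≤ e) :
    ∏ p ∈ e.primeFactors.filter (fun p => Rel D p ∧ p ∉ (∅ : Finset ℕ)),
      (e.factorization p + 1) ≤ tau e := by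
  have h0 : e ≠ 0 := by omega
  unfold tau
  rw [Nat.card_divisors h0]
  apply Finset.prod_le_prod_of_subset_of_one_le' (Finset.filter_subset _ _)
  intro p _ _
  omega

theorem st_UPSD (h1 : ST_IDLD) (h2 : Pool.Agent.Helper17.SO.ST_SAP) : ST_UPSD := by
  intro D hD
  obtain ⟨b, C0, hb, hC0, hS⟩ := h2
  obtain ⟨C1, hC1, hI⟩ := h1 D hD
  have hC1R : (1 : ℝ) ≤ (C1 : ℝ) := by exact_mod_cast hC1
  refine ⟨b, 6 * C0 * C1, hb, by positivity, ?_⟩
  intro j N M z e A hM hMN hz he hzN heM hA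
  obtain ⟨L, hL1', hL2, hL3'⟩ := hI j ∅ e (by intro p hp; exact absurd hp (Finset.notMem_empty p)) he
  have hL1 : L.card ≤ C1 * tau e := le_trans hL1' (Nat.mul_le_mul_left _ (upsd_tau D e he))
  have hL3 : ∀ v : ℤ × ℤ, e ∣ nmD D v →
      ∃ l ∈ L, (l.1 : ℤ) ∣ v.2 ∧ ((e / l.1 : ℕ) : ℤ) ∣ v.1 - l.2 * v.2 := by
    intro v hv
    apply hL3' v hv
    unfold Free
    intro p hp
    exact absurd hp (Finset.notMem_empty p)
  have heR : (0 : ℝ) < (e : ℝ) := by exact_mod_cast he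
  have hsw : 0 < sw A := Real.exp_pos _
  -- the lines
  let Y : ℕ × ℤ → Finset ℤ := fun l =>
    (Finset.Icc (-(M : ℤ)) (M : ℤ)).filter (fun y => (l.1 : ℤ) ∣ y)
  let V : ℕ × ℤ → ℤ → Finset (ℤ × ℤ) := fun l y =>
    (sbox N M).filter (fun v => v.2 = y ∧ ((e / l.1 : ℕ) : ℤ) ∣ v.1 - l.2 * y ∧ Free j A v)
  have hsub : (sbox N M).filter (fun v => e ∣ nmD D v ∧ Free j A v) ⊆
      L.biUnion (fun l => (Y l).biUnion (fun y => V l y)) := by
    intro v hv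
    obtain ⟨hv1, hv2, hv3⟩ := Finset.mem_filter.1 hv
    obtain ⟨l, hl, hl1, hl2⟩ := hL3 v hv2
    rw [Finset.mem_biUnion]
    refine ⟨l, hl, ?_⟩
    rw [Finset.mem_biUnion]
    refine ⟨v.2, ?_, ?_⟩
    · rw [Finset.mem_filter]
      refine ⟨?_, hl1⟩
      unfold sbox at hv1
      exact (Finset.mem_product.1 hv1).2
    · rw [Finset.mem_filter]
      exact ⟨hv1, rfl, hl2, hv3⟩
  have hcard : ((sbox N M).filter (fun v => e ∣ nmD D v ∧ Free j A v)).card ≤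
      ∑ l ∈ L, ∑ y ∈ Y l, (V l y).card :=
    le_trans (Finset.card_le_card hsub) (le_trans Finset.card_biUnion_le
      (Finset.sum_le_sum fun l _ => Finset.card_biUnion_le))
  have hmain : ∀ l ∈ L, ∑ y ∈ Y l, ((V l y).card : ℝ) ≤ 6 * C0 * ((M : ℝ) * N / e) * sw A := by
    intro l hl
    obtain ⟨hg1, hg2⟩ := hL2 l hl
    have hge : l.1 ∣ e := dvd_trans (dvd_pow_self l.1 (by norm_num)) hg2
    have hgM : l.1 ≤ M := by
      have h3 : l.1 ^ 2 ≤ M ^ 2 := le_trans (Nat.le_of_dvd he hg2) heM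
      exact (Nat.pow_le_pow_iff_left (by norm_num)).1 h3
    have hQ : 1 ≤ e / l.1 := Nat.div_pos (Nat.le_of_dvd he hge) hg1
    have hQe : e / l.1 ∣ e := Nat.div_dvd_of_dvd hge
    have hgR : (0 : ℝ) < (l.1 : ℝ) := by exact_mod_cast hg1
    have hzQ : z ^ b * (e / l.1) ≤ N :=
      le_trans (Nat.mul_le_mul_left _ (Nat.div_le_self _ _)) hzN
    have hline : ∀ y ∈ Y l, ((V l y).card : ℝ) ≤
        C0 * ((2 * N : ℝ) / ((e / l.1 : ℕ) : ℝ)) * sw A := by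
      intro y _
      apply ups_line b C0 hS j N z (e / l.1) A l.2 y hz hQ hzQ
      · intro p hp
        obtain ⟨q1, q2, q3, q4⟩ := hA p hp
        exact ⟨q1, q2, q3, fun hd => q4 (dvd_trans hd hQe)⟩
      · intro v hv
        obtain ⟨hv1, hv2, hv3, hv4⟩ := Finset.mem_filter.1 hv
        unfold sbox at hv1
        have hv5 := (Finset.mem_product.1 hv1).1
        rw [Finset.mem_Icc] at hv5
        exact ⟨hv2, hv5.1, hv5.2, hv3, hv4⟩
    have hQR : ((e / l.1 : ℕ) : ℝ) = (e : ℝ) / l.1 := Nat.cast_div hge (ne_of_gt hgR)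
    have hB : 0 ≤ C0 * ((2 * N : ℝ) / ((e / l.1 : ℕ) : ℝ)) * sw A := by positivity
    calc ∑ y ∈ Y l, ((V l y).card : ℝ)
        ≤ ∑ _y ∈ Y l, C0 * ((2 * N : ℝ) / ((e / l.1 : ℕ) : ℝ)) * sw A :=
          Finset.sum_le_sum hline
      _ = ((Y l).card : ℝ) * (C0 * ((2 * N : ℝ) / ((e / l.1 : ℕ) : ℝ)) * sw A) := by
          rw [Finset.sum_const, nsmul_eq_mul]
      _ ≤ (3 * M / l.1) * (C0 * ((2 * N : ℝ) / ((e / l.1 : ℕ) : ℝ)) * sw A) :=
          mul_le_mul_of_nonneg_right (ups_mult M l.1 hg1 hgM) hB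
      _ = 6 * C0 * ((M : ℝ) * N / e) * sw A := by
          rw [hQR]
          field_simp
          ring
  have hfin : (((sbox N M).filter (fun v => e ∣ nmD D v ∧ Free j A v)).card : ℝ) ≤
      ∑ l ∈ L, ∑ y ∈ Y l, ((V l y).card : ℝ) := by exact_mod_cast hcard
  have hD' : 0 ≤ 6 * C0 * ((M : ℝ) * N / e) * sw A := by positivity
  calc (((sbox N M).filter (fun v => e ∣ nmD D v ∧ Free j A v)).card : ℝ)
      ≤ ∑ l ∈ L, ∑ y ∈ Y l, ((V l y).card : ℝ) := hfin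
    _ ≤ ∑ _l ∈ L, 6 * C0 * ((M : ℝ) * N / e) * sw A := Finset.sum_le_sum hmain
    _ = (L.card : ℝ) * (6 * C0 * ((M : ℝ) * N / e) * sw A) := by
        rw [Finset.sum_const, nsmul_eq_mul]
    _ ≤ ((C1 : ℝ) * tau e) * (6 * C0 * ((M : ℝ) * N / e) * sw A) :=
        mul_le_mul_of_nonneg_right (by exact_mod_cast hL1) hD'
    _ = 6 * C0 * C1 * tau e * ((M : ℝ) * N / e) * sw A := by ring

end Pool.Agent.Helper37.DG
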