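import Pool.Agent.Helper37.DG.Stmts

set_option autoImplicit false

namespace Pool.Agent.Helper37.DG

open Finset
open scoped Classical
open Pool.Agent.Helper17.SO (PP LL)

/-- square roots of `-1` modulo the powers of `p` -/
theorem idl_root {p : ℕ} (hp : p.Prime) (h4 : p % 4 = 1) (n : ℕ) :
    ∃ r : ℤ, (p : ℤ) ^ n ∣ r ^ 2 + 1 ∧ (p : ℤ) ∣ r ^ 2 + 1 := by
  have hF : Fact p.Prime := ⟨hp⟩
  induction n with
  | zero =>
    have h1 : IsSquare (-1 : ZMod p) := by
      rw [ZMod.exists_sq_eq_neg_one_iff]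
      omega
    obtain ⟨s, hs⟩ := h1
    obtain ⟨r, rfl⟩ := ZMod.intCast_surjective s
    refine ⟨r, by simp, ?_⟩
    rw [← ZMod.intCast_zmod_eq_zero_iff_dvd]
    push_cast
    rw [sq, ← hs]
    ring
  | succ n ih =>
    obtain ⟨r, ⟨k, hk⟩, hr⟩ := ih
    obtain ⟨m, hm⟩ : ∃ m : ℕ, p = 2 * m + 1 := ⟨p / 2, by omega⟩
    rcases Nat.eq_zero_or_pos n with rfl | hn
    · exact ⟨r, by simpa using hr, hr⟩
    obtain ⟨n', rfl⟩ : ∃ n', n = n' + 1 := ⟨n - 1, by omega⟩
    obtain ⟨c, hc⟩ := hr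
    have hpz : (p : ℤ) = 2 * (m : ℤ) + 1 := by rw [hm]; push_cast; ring
    refine ⟨r + k * r * (m + 1) * (p : ℤ) ^ (n' + 1), ?_, ?_⟩
    · refine ⟨k * c + k * r ^ 2 + (k * r * (m + 1)) ^ 2 * (p : ℤ) ^ n', ?_⟩
      have e1 : (r + k * r * (m + 1) * (p : ℤ) ^ (n' + 1)) ^ 2 + 1 =
          (r ^ 2 + 1) + 2 * (k * r ^ 2 * (m + 1)) * (p : ℤ) ^ (n' + 1) +
            (k * r * (m + 1)) ^ 2 * ((p : ℤ) ^ (n' + 1) * (p : ℤ) ^ (n' + 1)) := by ring
      have e2 : 2 * (k * r ^ 2 * ((m : ℤ) + 1)) = k * r ^ 2 * p + k * (p * c) - k := by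
        rw [← hc, hpz]; ring
      rw [e1, e2, hk]
      ring
    · refine ⟨c + (2 * (k * r ^ 2 * (m + 1)) + (k * r * (m + 1)) ^ 2 * (p : ℤ) ^ (n' + 1)) *
        (p : ℤ) ^ n', ?_⟩
      have e1 : (r + k * r * (m + 1) * (p : ℤ) ^ (n' + 1)) ^ 2 + 1 =
          (r ^ 2 + 1) + (2 * (k * r ^ 2 * (m + 1)) +
            (k * r * (m + 1)) ^ 2 * (p : ℤ) ^ (n' + 1)) * (p : ℤ) ^ (n' + 1) := by ring
      rw [e1, hc, pow_succ]
      ring

/-- the conclusion for one vector, prime power case -/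
def idl_Q (p : ℕ) (R : ℕ → ℤ) (a : ℕ) (x y : ℤ) : Prop :=
  (∃ i, 2 * i < a ∧ (p : ℤ) ^ i ∣ y ∧ ((p : ℤ) ^ (a - i) ∣ x - R (a - 2 * i) * y ∨
    (p : ℤ) ^ (a - i) ∣ x - (-R (a - 2 * i)) * y)) ∨
  (a % 2 = 0 ∧ (p : ℤ) ^ (a / 2) ∣ y ∧ (p : ℤ) ^ (a / 2) ∣ x)

theorem idl_one {p : ℕ} (hp : p.Prime) (h4 : p % 4 = 1) {a : ℕ} {r x y : ℤ}
    (hr : (p : ℤ) ^ a ∣ r ^ 2 + 1) (hr1 : (p : ℤ) ∣ r ^ 2 + 1)
    (hxy : ¬ ((p : ℤ) ∣ x ∧ (p : ℤ) ∣ y)) (h : (p : ℤ) ^ a ∣ x ^ 2 + y ^ 2) :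
    (p : ℤ) ^ a ∣ x - r * y ∨ (p : ℤ) ^ a ∣ x - (-r) * y := by
  have hpz : Prime (p : ℤ) := Nat.prime_iff_prime_int.1 hp
  have hprod : (p : ℤ) ^ a ∣ (x - r * y) * (x - (-r) * y) := by
    have e1 : (x - r * y) * (x - (-r) * y) = (x ^ 2 + y ^ 2) - (r ^ 2 + 1) * y ^ 2 := by ring
    rw [e1]
    exact dvd_sub h (Dvd.dvd.mul_right hr _)
  have h2 : ¬ (p : ℤ) ∣ 2 := by
    intro h2
    have h3 : p ∣ 2 := by exact_mod_cast h2
    have := Nat.le_of_dvd two_pos h3
    have := hp.two_le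
    have h5 : p = 2 := by omega
    omega
  have hnot : ¬ ((p : ℤ) ∣ x - r * y ∧ (p : ℤ) ∣ x - (-r) * y) := by
    rintro ⟨h5, h6⟩
    have h7 : (p : ℤ) ∣ 2 * x := by
      have := dvd_add h5 h6
      have e : (x - r * y) + (x - (-r) * y) = 2 * x := by ring
      rwa [e] at this
    have hx : (p : ℤ) ∣ x := (hpz.dvd_or_dvd h7).resolve_left h2
    have h8 : (p : ℤ) ∣ r * y := by
      have := dvd_sub hx h5
      have e : x - (x - r * y) = r * y := by ring
      rwa [e] at this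
    have hy : (p : ℤ) ∣ y := by
      rcases hpz.dvd_or_dvd h8 with h9 | h9
      · exfalso
        have h10 : (p : ℤ) ∣ 1 := by
          have := dvd_sub hr1 (Dvd.dvd.mul_right h9 r)
          have e : r ^ 2 + 1 - r * r = 1 := by ring
          rwa [e] at this
        exact hpz.not_unit (isUnit_of_dvd_one h10)
      · exact h9
    exact hxy ⟨hx, hy⟩
  by_cases h5 : (p : ℤ) ∣ x - r * y
  · left
    have h6 : ¬ (p : ℤ) ∣ x - (-r) * y := fun h6 => hnot ⟨h5, h6⟩
    have h7 : IsCoprime ((p : ℤ) ^ a) (x - (-r) * y) :=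
      IsCoprime.pow_left ((Prime.coprime_iff_not_dvd hpz).2 h6)
    exact h7.dvd_of_dvd_mul_right hprod
  · right
    have h7 : IsCoprime ((p : ℤ) ^ a) (x - r * y) :=
      IsCoprime.pow_left ((Prime.coprime_iff_not_dvd hpz).2 h5)
    exact h7.dvd_of_dvd_mul_left hprod

theorem idl_pp {p : ℕ} (hp : p.Prime) (h4 : p % 4 = 1) (R : ℕ → ℤ)
    (hR : ∀ n, (p : ℤ) ^ n ∣ R n ^ 2 + 1 ∧ (p : ℤ) ∣ R n ^ 2 + 1) (a : ℕ) :
    ∀ x y : ℤ, (p : ℤ) ^ a ∣ x ^ 2 + y ^ 2 → idl_Q p R a x y := by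
  have hp0 : (p : ℤ) ≠ 0 := by exact_mod_cast hp.ne_zero
  induction a using Nat.strong_induction_on with
  | _ a ih =>
    intro x y h
    rcases Nat.eq_zero_or_pos a with rfl | ha
    · exact Or.inr ⟨rfl, by simp, by simp⟩
    by_cases hxy : (p : ℤ) ∣ x ∧ (p : ℤ) ∣ y
    · obtain ⟨⟨x', rfl⟩, ⟨y', rfl⟩⟩ := hxy
      by_cases ha1 : a = 1
      · subst ha1
        left
        refine ⟨0, by norm_num, by simp, Or.inl ?_⟩
        refine ⟨x' - R (1 - 2 * 0) * y', ?_⟩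
        simp only [Nat.sub_zero, pow_one]
        ring
      · obtain ⟨b, rfl⟩ : ∃ b, a = b + 2 := ⟨a - 2, by omega⟩
        have h1 : (p : ℤ) ^ b ∣ x' ^ 2 + y' ^ 2 := by
          have e1 : ((p : ℤ) * x') ^ 2 + ((p : ℤ) * y') ^ 2 = (p : ℤ) ^ 2 * (x' ^ 2 + y' ^ 2) := by
            ring
          rw [e1, pow_add, mul_comm ((p : ℤ) ^ b)] at h
          exact (mul_dvd_mul_iff_left (pow_ne_zero 2 hp0)).1 h
        rcases ih b (by omega) x' y' h1 with ⟨i, hi, hy, hx⟩ | ⟨hb, hy, hx⟩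
        · left
          refine ⟨i + 1, by omega, ?_, ?_⟩
          · rw [pow_succ, mul_comm]
            exact mul_dvd_mul_left _ hy
          · have e2 : b + 2 - (i + 1) = (b - i) + 1 := by omega
            have e3 : b + 2 - 2 * (i + 1) = b - 2 * i := by omega
            rw [e2, e3, pow_succ, mul_comm ((p : ℤ) ^ (b - i))]
            rcases hx with hx | hx
            · left
              have e4 : (p : ℤ) * x' - R (b - 2 * i) * (p * y') =
                  p * (x' - R (b - 2 * i) * y') := by ring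
              rw [e4]
              exact mul_dvd_mul_left _ hx
            · right
              have e4 : (p : ℤ) * x' - -R (b - 2 * i) * (p * y') =
                  p * (x' - -R (b - 2 * i) * y') := by ring
              rw [e4]
              exact mul_dvd_mul_left _ hx
        · right
          have e2 : (b + 2) / 2 = b / 2 + 1 := by omega
          rw [e2, pow_succ, mul_comm ((p : ℤ) ^ (b / 2))]
          exact ⟨by omega, mul_dvd_mul_left _ hy, mul_dvd_mul_left _ hx⟩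
    · left
      refine ⟨0, by omega, by simp, ?_⟩
      have := idl_one hp h4 (hR (a - 2 * 0)).1 (hR (a - 2 * 0)).2 hxy
        (by simpa using h)
      simpa using this

/-- the list of lattices -/
def idl_Good (e : ℕ) : Prop := ∃ L : Finset (ℕ × ℤ), L.card ≤ tau e ∧
  (∀ l ∈ L, 1 ≤ l.1 ∧ l.1 ^ 2 ∣ e) ∧
  ∀ x y : ℤ, (e : ℤ) ∣ x ^ 2 + y ^ 2 →
    ∃ l ∈ L, (l.1 : ℤ) ∣ y ∧ ((e / l.1 : ℕ) : ℤ) ∣ x - l.2 * y

theorem idl_goodpp {p : ℕ} (hp : p.Prime) (h4 : p % 4 = 1) (a : ℕ) : idl_Good (p ^ a) := by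
  choose R hR using fun n => idl_root hp h4 n
  have ht : tau (p ^ a) = a + 1 := by
    unfold tau
    rw [Nat.divisors_prime_pow hp, Finset.card_map, Finset.card_range]
  refine ⟨((range ((a + 1) / 2)).biUnion fun i =>
    {(p ^ i, R (a - 2 * i)), (p ^ i, -R (a - 2 * i))}) ∪
      (if a % 2 = 0 then {(p ^ (a / 2), 0)} else ∅), ?_, ?_, ?_⟩
  · rw [ht]
    refine (Finset.card_union_le _ _).trans ?_
    have h1 : ((range ((a + 1) / 2)).biUnion fun i =>
        ({(p ^ i, R (a - 2 * i)), (p ^ i, -R (a - 2 * i))} : Finset (ℕ × ℤ))).card ≤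
        ((range ((a + 1) / 2)).card) * 2 :=
      Finset.card_biUnion_le_card_mul _ _ _ fun i _ => Finset.card_le_two
    rw [Finset.card_range] at h1
    split_ifs with h2
    · rw [Finset.card_singleton]
      omega
    · rw [Finset.card_empty]
      omega
  · intro l hl
    rw [Finset.mem_union, Finset.mem_biUnion] at hl
    rcases hl with ⟨i, hi, hl⟩ | hl
    · rw [Finset.mem_range] at hi
      have h1 : l.1 = p ^ i := by
        rw [Finset.mem_insert, Finset.mem_singleton] at hl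
        rcases hl with rfl | rfl <;> rfl
      rw [h1, ← pow_mul]
      exact ⟨Nat.one_le_pow _ _ hp.pos, pow_dvd_pow p (by omega)⟩
    · split_ifs at hl with h2
      · rw [Finset.mem_singleton] at hl
        rw [hl]
        simp only
        rw [← pow_mul]
        exact ⟨Nat.one_le_pow _ _ hp.pos, pow_dvd_pow p (by omega)⟩
      · simp at hl
  · intro x y h
    have h' : (p : ℤ) ^ a ∣ x ^ 2 + y ^ 2 := by exact_mod_cast h
    rcases idl_pp hp h4 R hR a x y h' with ⟨i, hi, hy, hx⟩ | ⟨ha, hy, hx⟩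
    · have e1 : ((p ^ a / p ^ i : ℕ) : ℤ) = (p : ℤ) ^ (a - i) := by
        rw [Nat.pow_div (by omega) hp.pos]
        push_cast
        rfl
      rcases hx with hx | hx
      · refine ⟨(p ^ i, R (a - 2 * i)), ?_, ?_, ?_⟩
        · rw [Finset.mem_union, Finset.mem_biUnion]
          exact Or.inl ⟨i, Finset.mem_range.2 (by omega), Finset.mem_insert_self _ _⟩
        · push_cast
          exact hy
        · simp only
          rw [e1]
          exact hx
      · refine ⟨(p ^ i, -R (a - 2 * i)), ?_, ?_, ?_⟩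
        · rw [Finset.mem_union, Finset.mem_biUnion]
          exact Or.inl ⟨i, Finset.mem_range.2 (by omega),
            Finset.mem_insert_of_mem (Finset.mem_singleton_self _)⟩
        · push_cast
          exact hy
        · simp only
          rw [e1]
          exact hx
    · refine ⟨(p ^ (a / 2), 0), ?_, ?_, ?_⟩
      · rw [Finset.mem_union, if_pos ha]
        exact Or.inr (Finset.mem_singleton_self _)
      · push_cast
        exact hy
      · simp only
        rw [Nat.pow_div (by omega) hp.pos, show a - a / 2 = a / 2 by omega]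
        push_cast
        rw [zero_mul, sub_zero]
        exact hx

theorem idl_crt {m n : ℤ} (h : IsCoprime m n) (s t : ℤ) : ∃ r : ℤ, m ∣ r - s ∧ n ∣ r - t := by
  obtain ⟨u, v, huv⟩ := h
  refine ⟨s * (v * n) + t * (u * m), ⟨u * (t - s), ?_⟩, ⟨v * (s - t), ?_⟩⟩
  · linear_combination s * huv
  · linear_combination t * huv

theorem idl_mul {a b : ℕ} (ha : 1 < a) (hb : 1 < b) (hab : a.Coprime b) (h1 : idl_Good a)
    (h2 : idl_Good b) : idl_Good (a * b) := by
  obtain ⟨L1, c1, d1, f1⟩ := h1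
  obtain ⟨L2, c2, d2, f2⟩ := h2
  have hex : ∀ l : (ℕ × ℤ) × (ℕ × ℤ), ∃ r : ℤ, l.1 ∈ L1 → l.2 ∈ L2 →
      ((a / l.1.1 : ℕ) : ℤ) ∣ r - l.1.2 ∧ ((b / l.2.1 : ℕ) : ℤ) ∣ r - l.2.2 := by
    intro l
    by_cases hl : l.1 ∈ L1 ∧ l.2 ∈ L2
    · have g1 : a / l.1.1 ∣ a := Nat.div_dvd_of_dvd ((dvd_pow_self _ two_ne_zero).trans (d1 _ hl.1).2)
      have g2 : b / l.2.1 ∣ b := Nat.div_dvd_of_dvd ((dvd_pow_self _ two_ne_zero).trans (d2 _ hl.2).2)
      have g3 : (a / l.1.1).Coprime (b / l.2.1) := Nat.Coprime.coprime_dvd_left g1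
        (Nat.Coprime.coprime_dvd_right g2 hab)
      obtain ⟨r, hr⟩ := idl_crt (Nat.isCoprime_iff_coprime.2 g3) l.1.2 l.2.2
      exact ⟨r, fun _ _ => hr⟩
    · exact ⟨0, fun h3 h4 => absurd ⟨h3, h4⟩ hl⟩
  choose f hf using hex
  refine ⟨(L1 ×ˢ L2).image (fun l => (l.1.1 * l.2.1, f l)), ?_, ?_, ?_⟩
  · refine Finset.card_image_le.trans ?_
    rw [Finset.card_product]
    have e1 : tau (a * b) = tau a * tau b := by
      unfold tau
      exact Nat.Coprime.card_divisors_mul hab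
    rw [e1]
    exact Nat.mul_le_mul c1 c2
  · intro l hl
    rw [Finset.mem_image] at hl
    obtain ⟨l', hl', rfl⟩ := hl
    rw [Finset.mem_product] at hl'
    simp only
    refine ⟨Nat.mul_pos (d1 _ hl'.1).1 (d2 _ hl'.2).1, ?_⟩
    rw [mul_pow]
    exact mul_dvd_mul (d1 _ hl'.1).2 (d2 _ hl'.2).2
  · intro x y h
    have hA : (a : ℤ) ∣ x ^ 2 + y ^ 2 := by
      refine dvd_trans ?_ h
      push_cast
      exact dvd_mul_right _ _
    have hB : (b : ℤ) ∣ x ^ 2 + y ^ 2 := by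
      refine dvd_trans ?_ h
      push_cast
      exact dvd_mul_left _ _
    obtain ⟨l1, m1, y1, x1⟩ := f1 x y hA
    obtain ⟨l2, m2, y2, x2⟩ := f2 x y hB
    have k1 : l1.1 ∣ a := (dvd_pow_self _ two_ne_zero).trans (d1 _ m1).2
    have k2 : l2.1 ∣ b := (dvd_pow_self _ two_ne_zero).trans (d2 _ m2).2
    have q1 : l1.1.Coprime l2.1 := Nat.Coprime.coprime_dvd_left k1
      (Nat.Coprime.coprime_dvd_right k2 hab)
    have q2 : (a / l1.1).Coprime (b / l2.1) := Nat.Coprime.coprime_dvd_left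
      (Nat.div_dvd_of_dvd k1) (Nat.Coprime.coprime_dvd_right (Nat.div_dvd_of_dvd k2) hab)
    obtain ⟨r1, r2⟩ := hf (l1, l2) m1 m2
    simp only at r1 r2
    refine ⟨(l1.1 * l2.1, f (l1, l2)), Finset.mem_image.2
      ⟨(l1, l2), Finset.mem_product.2 ⟨m1, m2⟩, rfl⟩, ?_, ?_⟩
    · simp only
      push_cast
      exact (Nat.isCoprime_iff_coprime.2 q1).mul_dvd y1 y2
    · simp only
      rw [← Nat.div_mul_div_comm k1 k2]
      push_cast
      refine IsCoprime.mul_dvd ?_ ?_ ?_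
      · exact_mod_cast Nat.isCoprime_iff_coprime.2 q2
      · have e1 : x - f (l1, l2) * y = (x - l1.2 * y) - (f (l1, l2) - l1.2) * y := by ring
        rw [e1]
        refine dvd_sub ?_ (Dvd.dvd.mul_right ?_ _)
        · exact_mod_cast x1
        · exact_mod_cast r1
      · have e1 : x - f (l1, l2) * y = (x - l2.2 * y) - (f (l1, l2) - l2.2) * y := by ring
        rw [e1]
        refine dvd_sub ?_ (Dvd.dvd.mul_right ?_ _)
        · exact_mod_cast x2
        · exact_mod_cast r2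

theorem idl_good (e : ℕ) : (∀ p : ℕ, p.Prime → p ∣ e → p % 4 = 1) → idl_Good e := by
  induction e using Nat.recOnPosPrimePosCoprime with
  | prime_pow p n hp hn =>
    intro h
    exact idl_goodpp hp (h p hp (dvd_pow_self p hn.ne')) n
  | zero =>
    intro h
    have := h 2 Nat.prime_two (dvd_zero 2)
    omega
  | one =>
    intro _
    refine ⟨{(1, 0)}, ?_, ?_, ?_⟩
    · simp [tau]
    · intro l hl
      rw [Finset.mem_singleton] at hl
      rw [hl]
      simp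
    · intro x y _
      exact ⟨(1, 0), Finset.mem_singleton_self _, by simp, by simp⟩
  | coprime a b ha hb hab iha ihb =>
    intro h
    exact idl_mul ha hb hab (iha fun p hp hpa => h p hp (Dvd.dvd.mul_right hpa b))
      (ihb fun p hp hpb => h p hp (Dvd.dvd.mul_left hpb a))

theorem st_IDL : ST_IDL := by
  intro e _ h
  obtain ⟨L, h1, h2, h3⟩ := idl_good e h
  refine ⟨L, h1, h2, ?_⟩
  intro v hv
  apply h3
  unfold nm at hv
  exact Int.natCast_dvd.2 hv

end Pool.Agent.Helper37.DG
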